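import Pool.Agent.Q168.PW.Comb

/-!
# MP_91d3dc_co : permutational walks of low cost in k-DFAs

For every exponent `e > 3/2`, every `c > 0` and every `d`, almost all permutational words have cost
larger than `k²/2 - c k^e` in each `k`-DFA with `k^d` states.
-/

namespace Pool.Agent.Results.MP_91d3dc_co.LowCost

open Finset Filter Asymptotics Topology Q168.PW

/-- A `k`-DFA with `N` states: a transition function, a root, and a cost function with values
`1, 2, …` such that for every state `v` the map `t ↦ cost v t` is a bijection from the alphabet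
to `{1, …, k}`. -/
structure KDFA (k N : ℕ) where
  /-- the transition function -/
  step : Fin N → Fin k → Fin N
  /-- the root -/
  root : Fin N
  /-- the cost function -/
  cost : Fin N → Fin k → ℕ
  cost_perm : ∀ v, Set.BijOn (cost v) Set.univ (Set.Icc 1 k)

/-- The cost of the walk which starts at the state `v` and reads the word `w`. -/
def KDFA.walkCost {k N : ℕ} (D : KDFA k N) : Fin N → List (Fin k) → ℕ
  | _, [] => 0
  | v, t :: w => D.cost v t + D.walkCost (D.step v t) w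

/-- A permutational word: a word of length `k` in which every letter occurs exactly once. -/
def IsPermutational {k : ℕ} (w : List (Fin k)) : Prop := w.length = k ∧ ∀ t, w.count t = 1

/-- The number of permutational words of cost at most `n` (read from the root). -/
noncomputable def KDFA.lowCount {k N : ℕ} (D : KDFA k N) (n : ℝ) : ℕ :=
  Set.ncard {w : List (Fin k) | IsPermutational w ∧ (D.walkCost D.root w : ℝ) ≤ n}

/-- `G k n N`: the maximum, over all `k`-DFAs with `N` states, of the number of permutational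
words of cost at most `n` (read from the root). -/
noncomputable def G (k : ℕ) (n : ℝ) (N : ℕ) : ℕ :=
  sSup {m : ℕ | ∃ D : KDFA k N, m = D.lowCount n}

theorem sum_cost {k N : ℕ} (D : KDFA k N) (v : Fin N) :
    ∑ t, (D.cost v t : ℝ) = k * ((k + 1) / 2) := by
  have h := D.cost_perm v
  have h1 : ∑ t : Fin k, (D.cost v t : ℝ) = ∑ i ∈ Finset.Icc 1 k, (i : ℝ) := by
    refine Finset.sum_bij (fun t _ => D.cost v t) ?_ ?_ ?_ ?_
    · intro t _
      have := h.mapsTo (Set.mem_univ t)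
      exact Finset.mem_Icc.2 this
    · intro t _ t' _ htt
      exact h.injOn (Set.mem_univ _) (Set.mem_univ _) htt
    · intro i hi
      obtain ⟨t, _, ht⟩ := h.surjOn (Finset.mem_Icc.1 hi)
      exact ⟨t, Finset.mem_univ _, ht⟩
    · intro t _; rfl
  rw [h1]
  clear h h1
  have h2 : ∀ n : ℕ, ∑ i ∈ Finset.Icc 1 n, (i : ℝ) = n * ((n + 1) / 2) := by
    intro n
    induction n with
    | zero => simp
    | succ n ih =>
      rw [Finset.sum_Icc_succ_top (by omega), ih]
      push_cast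
      ring
  exact h2 k

theorem cost_mem {k N : ℕ} (D : KDFA k N) (v : Fin N) (t : Fin k) :
    0 ≤ (D.cost v t : ℝ) ∧ (D.cost v t : ℝ) ≤ k := by
  have := (D.cost_perm v).mapsTo (Set.mem_univ t)
  exact ⟨Nat.cast_nonneg _, by exact_mod_cast this.2⟩

theorem walkCost_eq {k N : ℕ} (D : KDFA k N) : ∀ (w : List (Fin k)) (v : Fin N),
    (D.walkCost v w : ℝ) = Q168.PW.cost D.step (fun v t => (D.cost v t : ℝ)) v w
  | [], v => by simp [KDFA.walkCost, Q168.PW.cost]
  | t :: w, v => by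
    rw [KDFA.walkCost, Q168.PW.cost, ← walkCost_eq D w]
    push_cast
    rfl

theorem permutational_iff {k : ℕ} (w : List (Fin k)) :
    IsPermutational w ↔ w ∈ W (Finset.univ : Finset (Fin k)) := by
  rw [mem_W]
  constructor
  · rintro ⟨_, h⟩
    refine ⟨List.nodup_iff_count_le_one.2 fun t => (h t).le, ?_⟩
    ext t
    simp only [List.mem_toFinset, Finset.mem_univ, iff_true]
    exact List.count_pos_iff.1 (by rw [h t]; exact one_pos)
  · rintro ⟨h1, h2⟩
    refine ⟨?_, fun t => List.count_eq_one_of_mem h1 ?_⟩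
    · rw [← List.toFinset_card_of_nodup h1, h2]; simp
    · rw [← List.mem_toFinset, h2]; exact Finset.mem_univ _

/-- bound for a single automaton -/
theorem lowCount_le {k N : ℕ} (hk : 1 ≤ k) (D : KDFA k N) {θ τ n : ℝ} (hθ : 0 ≤ θ) (hτ : 0 ≤ τ)
    (hτk : τ ≤ 2 * k ^ 2)
    (hn : n ≤ k * ((k + 1) / 2) - 2 * θ * Real.sqrt k - τ) :
    (D.lowCount n : ℝ) ≤ k.factorial * (Real.exp (-(τ ^ 2 / (4 * k ^ 3))) +
      N * k * Real.exp (-(θ ^ 2 / (8 * k ^ 2)))) := by
  classical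
  have hk0 : (1 : ℝ) ≤ k := by exact_mod_cast hk
  have h := card_low D.step (fun v t => (D.cost v t : ℝ)) hk (cost_mem D) (sum_cost D)
    (by linarith) hθ hτ hτk D.root
  rw [Fintype.card_fin] at h
  refine le_trans ?_ h
  refine Nat.cast_le.2 ?_
  rw [KDFA.lowCount, ← Set.ncard_coe_finset]
  refine Set.ncard_le_ncard ?_ (Finset.finite_toSet _)
  rintro w ⟨h1, h2⟩
  rw [Finset.mem_coe, Finset.mem_filter]
  refine ⟨(permutational_iff w).1 h1, ?_⟩
  rw [← walkCost_eq]
  exact h2.trans hn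

theorem G_le {k N : ℕ} (hk : 1 ≤ k) {θ τ n : ℝ} (hθ : 0 ≤ θ) (hτ : 0 ≤ τ)
    (hτk : τ ≤ 2 * k ^ 2)
    (hn : n ≤ k * ((k + 1) / 2) - 2 * θ * Real.sqrt k - τ) :
    (G k n N : ℝ) ≤ k.factorial * (Real.exp (-(τ ^ 2 / (4 * k ^ 3))) +
      N * k * Real.exp (-(θ ^ 2 / (8 * k ^ 2)))) := by
  rcases Set.eq_empty_or_nonempty {m : ℕ | ∃ D : KDFA k N, m = D.lowCount n} with he | hne
  · rw [G, he, csSup_empty, Nat.bot_eq_zero, Nat.cast_zero]
    positivity
  · have hbdd : BddAbove {m : ℕ | ∃ D : KDFA k N, m = D.lowCount n} := by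
      refine ⟨⌊(k.factorial * (Real.exp (-(τ ^ 2 / (4 * k ^ 3))) +
        N * k * Real.exp (-(θ ^ 2 / (8 * k ^ 2)))) : ℝ)⌋₊, ?_⟩
      rintro m ⟨D, rfl⟩
      exact Nat.le_floor (lowCount_le hk D hθ hτ hτk hn)
    obtain ⟨D, hD⟩ := Nat.sSup_mem hne hbdd
    rw [G, hD]
    exact lowCount_le hk D hθ hτ hτk hn

/-- **Main theorem** (an affirmative answer to Q1 of MP_91d3dc_co, for all exponents allowed by the
known obstruction).  For all `e > 3/2`, `c > 0` and `d`,
`G(k, k²/2 - c k^e, k^d) = o(k!)` as `k → ∞`. -/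
theorem result (d : ℕ) (e : ℝ) (he : 3 / 2 < e) (c : ℝ) (hc : 0 < c) :
    (fun k : ℕ => (G k ((k : ℝ) ^ 2 / 2 - c * (k : ℝ) ^ e) (k ^ d) : ℝ)) =o[atTop]
      fun k : ℕ => (k.factorial : ℝ) := by
  set ε : ℝ := min ((e - 3 / 2) / 2) (1 / 2) with hε
  have hε0 : 0 < ε := by rw [hε]; exact lt_min (by linarith) (by norm_num)
  have hε1 : ε ≤ (e - 3 / 2) / 2 := min_le_left _ _
  have hε2 : ε ≤ 1 / 2 := min_le_right _ _
  -- the bounding function
  let b : ℕ → ℝ := fun k => Real.exp (-((k : ℝ) ^ (2 * ε) / 4)) +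
    (k : ℝ) ^ (d + 1) * Real.exp (-((k : ℝ) ^ (2 * ε) / 8))
  have hpow : Tendsto (fun k : ℕ => (k : ℝ) ^ (2 * ε)) atTop atTop :=
    (tendsto_rpow_atTop (by positivity)).comp tendsto_natCast_atTop_atTop
  have hb : Tendsto b atTop (𝓝 0) := by
    have h1 : Tendsto (fun k : ℕ => Real.exp (-((k : ℝ) ^ (2 * ε) / 4))) atTop (𝓝 0) := by
      refine Real.tendsto_exp_neg_atTop_nhds_zero.comp ?_
      exact hpow.atTop_div_const (by norm_num)
    have h2 : Tendsto (fun k : ℕ => (k : ℝ) ^ (d + 1) * Real.exp (-((k : ℝ) ^ (2 * ε) / 8)))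
        atTop (𝓝 0) := by
      have h3 := (tendsto_rpow_mul_exp_neg_mul_atTop_nhds_zero (((d : ℝ) + 1) / (2 * ε)) (1 / 8)
        (by norm_num)).comp hpow
      refine h3.congr fun k => ?_
      simp only [Function.comp]
      have hk : (0 : ℝ) ≤ k := Nat.cast_nonneg k
      rw [← Real.rpow_mul hk, show 2 * ε * (((d : ℝ) + 1) / (2 * ε)) = ((d + 1 : ℕ) : ℝ) by
        push_cast; field_simp, Real.rpow_natCast]
      congr 2
      ring
    simpa using h1.add h2
  have hlarge : ∀ᶠ k : ℕ in atTop, 3 ≤ c * (k : ℝ) ^ ε := by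
    have : Tendsto (fun k : ℕ => c * (k : ℝ) ^ ε) atTop atTop :=
      ((tendsto_rpow_atTop hε0).comp tendsto_natCast_atTop_atTop).const_mul_atTop hc
    exact this.eventually_ge_atTop 3
  have hev : ∀ᶠ k : ℕ in atTop,
      (G k ((k : ℝ) ^ 2 / 2 - c * (k : ℝ) ^ e) (k ^ d) : ℝ) ≤ b k * k.factorial := by
    filter_upwards [hlarge, eventually_ge_atTop 1] with k hk3 hk
    have hk1 : (1 : ℝ) ≤ k := by exact_mod_cast hk
    have hk0 : (0 : ℝ) < k := by linarith
    have hτk : (k : ℝ) ^ (3 / 2 + ε) ≤ 2 * (k : ℝ) ^ 2 := by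
      calc (k : ℝ) ^ (3 / 2 + ε) ≤ (k : ℝ) ^ (2 : ℝ) :=
            Real.rpow_le_rpow_of_exponent_le hk1 (by linarith)
        _ = (k : ℝ) ^ 2 := by norm_cast
        _ ≤ 2 * (k : ℝ) ^ 2 := by nlinarith [sq_nonneg (k : ℝ)]
    have hθs : (k : ℝ) ^ (1 + ε) * Real.sqrt k = (k : ℝ) ^ (3 / 2 + ε) := by
      rw [Real.sqrt_eq_rpow, ← Real.rpow_add hk0]; congr 1; ring
    have hn : (k : ℝ) ^ 2 / 2 - c * (k : ℝ) ^ e ≤
        k * ((k + 1) / 2) - 2 * (k : ℝ) ^ (1 + ε) * Real.sqrt k - (k : ℝ) ^ (3 / 2 + ε) := by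
      rw [mul_assoc, hθs]
      have h1 : (k : ℝ) ^ (3 / 2 + ε) * (k : ℝ) ^ ε ≤ (k : ℝ) ^ e := by
        rw [← Real.rpow_add hk0]
        exact Real.rpow_le_rpow_of_exponent_le hk1 (by linarith)
      have h2 : 0 ≤ (k : ℝ) ^ (3 / 2 + ε) := by positivity
      have h3 := mul_le_mul_of_nonneg_left hk3 h2
      have h4 := mul_le_mul_of_nonneg_left h1 hc.le
      nlinarith
    have h := G_le (N := k ^ d) hk (by positivity : (0 : ℝ) ≤ (k : ℝ) ^ (1 + ε))
      (by positivity : (0 : ℝ) ≤ (k : ℝ) ^ (3 / 2 + ε)) hτk hn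
    refine h.trans (le_of_eq ?_)
    have e1 : ((k : ℝ) ^ (3 / 2 + ε)) ^ 2 / (4 * (k : ℝ) ^ 3) = (k : ℝ) ^ (2 * ε) / 4 := by
      rw [← Real.rpow_natCast ((k : ℝ) ^ (3 / 2 + ε)) 2, ← Real.rpow_mul hk0.le,
        show (3 / 2 + ε) * ((2 : ℕ) : ℝ) = 2 * ε + ((3 : ℕ) : ℝ) by push_cast; ring,
        Real.rpow_add hk0, Real.rpow_natCast]
      field_simp
    have e2 : ((k : ℝ) ^ (1 + ε)) ^ 2 / (8 * (k : ℝ) ^ 2) = (k : ℝ) ^ (2 * ε) / 8 := by
      rw [← Real.rpow_natCast ((k : ℝ) ^ (1 + ε)) 2, ← Real.rpow_mul hk0.le,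
        show (1 + ε) * ((2 : ℕ) : ℝ) = 2 * ε + ((2 : ℕ) : ℝ) by push_cast; ring,
        Real.rpow_add hk0, Real.rpow_natCast]
      field_simp
    rw [e1, e2]
    push_cast
    simp only [b]
    ring
  rw [isLittleO_iff_tendsto' (Eventually.of_forall fun k h => absurd h (by positivity))]
  refine tendsto_of_tendsto_of_tendsto_of_le_of_le' tendsto_const_nhds hb ?_ ?_
  · exact Eventually.of_forall fun k => by positivity
  · filter_upwards [hev] with k hk
    have : (0 : ℝ) < k.factorial := by exact_mod_cast k.factorial_pos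
    rwa [div_le_iff₀ this]

end Pool.Agent.Results.MP_91d3dc_co.LowCost
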